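import Pool.Agent.helper440_msz.Sizes

set_option autoImplicit false

/-!
# Large abc quotients with a term of every size

For every `θ` in `[0, 1]` there are triples `a + b = c` with `a = c ^ (θ + o(1))` and
`c > R (a b c) exp ((log log c) ^ 2 / 51)`, at every height.

From an abc-triple `a₀ + b₀ = c₀` with a given first term `a₀` (divisible by `16 d e^e f^f`, where
`d = e + f`) and `c₀ > R (a₀ b₀ c₀) exp ((log log c₀) ^ 2 / 50)` (helper files `Pool.Agent.H902B`) one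
gets `a = d^d a₀^e b₀^f / (e^e f^f)`, `c = c₀ ^ d`. The form
`e^e f^f c^d - d^d a^e (c - a)^f` is divisible by `(d a - e c)²`, so that the radical of `b = c - a`
is `O (c₀ ^ (d - 1))`, and nothing of the quotient `c₀ / R (a₀ b₀ c₀)` is lost but a constant. The
size of `a` is `c ^ (f / d)`.
-/

namespace Pool.Agent.Results.MP_7aad9f_nt.EverySizeOfATerm

/-- the radical `R(m)`: the product of the distinct primes dividing `m` -/
def R (m : ℕ) : ℕ := ∏ p ∈ m.primeFactors, p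

/-- For every `θ` in `[0, 1]` and every `ε > 0`, for all large `L`, there are at least
`L ^ (1 / 21)` numbers `c` with `L ≤ log c ≤ L (log L) ^ 2` such that `c = a + b` with coprime
positive integers `a`, `b`, `|log a / log c - θ| < ε` and
`c > R (a b c) exp ((log log c) ^ 2 / 51)`. -/
theorem result (θ : ℝ) (h₀ : 0 ≤ θ) (h₁ : θ ≤ 1) (ε : ℝ) (hε : 0 < ε) :
    ∃ L₀ : ℝ, ∀ L : ℝ, L₀ ≤ L → ∃ S : Finset ℕ, L ^ (1 / 21 : ℝ) ≤ S.card ∧ ∀ c ∈ S,
      L ≤ Real.log c ∧ Real.log c ≤ L * Real.log L ^ 2 ∧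
      ∃ a b : ℕ, 0 < a ∧ 0 < b ∧ Nat.Coprime a b ∧ a + b = c ∧
        |Real.log a / Real.log c - θ| < ε ∧
        (R (a * b * c) : ℝ) * Real.exp (Real.log (Real.log c) ^ 2 / 51) < c := by
  obtain ⟨q, hq1, hq2⟩ : ∃ q : ℚ, max 0 (θ - min ε (1 / 2)  / 2) < (q : ℝ) ∧
      (q : ℝ) < min 1 (θ + min ε (1 / 2) / 2) := by
    refine exists_rat_btwn ?_
    have hm : 0 < min ε (1 / 2) := lt_min hε (by norm_num)
    have hm2 : min ε (1 / 2) ≤ 1 / 2 := min_le_right _ _
    refine max_lt (lt_min one_pos ?_) (lt_min ?_ ?_) <;> linarith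
  have hq0 : (0 : ℝ) < q := lt_of_le_of_lt (le_max_left _ _) hq1
  have hq1' : (q : ℝ) < 1 := lt_of_lt_of_le hq2 (min_le_left _ _)
  have hqa : θ - min ε (1 / 2) / 2 < q := lt_of_le_of_lt (le_max_right _ _) hq1
  have hqb : (q : ℝ) < θ + min ε (1 / 2) / 2 := lt_of_lt_of_le hq2 (min_le_right _ _)
  have hme : min ε (1 / 2) ≤ ε := min_le_left _ _
  have hq0' : 0 < q := by exact_mod_cast hq0
  have hq1'' : q < 1 := by exact_mod_cast hq1'
  have hnum : 0 < q.num := Rat.num_pos.2 hq0'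
  have hnd : q.num < q.den := by
    have h1 : (q.num : ℚ) < (q.den : ℚ) := by
      have h2 : q * q.den = q.num := Rat.mul_den_eq_num q
      have h3 : (0 : ℚ) < q.den := by exact_mod_cast q.den_pos
      nlinarith
    exact_mod_cast h1
  obtain ⟨f, hf⟩ : ∃ f : ℕ, (f : ℤ) = q.num := ⟨q.num.toNat, Int.toNat_of_nonneg hnum.le⟩
  obtain ⟨e, he⟩ : ∃ e : ℕ, e + f = q.den := ⟨q.den - f, by omega⟩
  have hρ : ((f : ℝ) / (e + f) : ℝ) = q := by
    have h1 : ((e : ℝ) + f) = q.den := by exact_mod_cast he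
    have h2 : (f : ℝ) = q.num := by exact_mod_cast hf
    have h3 : (0 : ℝ) < q.den := by exact_mod_cast q.den_pos
    have h4 : (q : ℝ) * q.den = q.num := by exact_mod_cast Rat.mul_den_eq_num q
    rw [h1, h2, ← h4]
    field_simp
  obtain ⟨L₀, hL₀⟩ :=
    Pool.Agent.helper440_msz.sizes e f (by omega) (by omega) (ε / 2) (by linarith)
  refine ⟨L₀, fun L hL => ?_⟩
  obtain ⟨S, hS, hc⟩ := hL₀ L hL
  refine ⟨S, hS, fun c hcS => ?_⟩
  obtain ⟨k1, k2, a, b, k3, k4, k5, k6, k7, k8⟩ := hc c hcS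
  refine ⟨k1, k2, a, b, k3, k4, k5, k6, ?_, k8⟩
  rw [hρ] at k7
  have e1 : |(q : ℝ) - θ| ≤ ε / 2 := by
    rw [abs_le]; constructor <;> linarith
  have e2 : Real.log a / Real.log c - θ = (Real.log a / Real.log c - q) + (q - θ) := by ring
  rw [e2]
  refine lt_of_le_of_lt (abs_add_le _ _) ?_
  linarith

end Pool.Agent.Results.MP_7aad9f_nt.EverySizeOfATerm
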