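import Mathlib
import Pool.Agent.Helper932MB.Low

/-!
# The abc triples `(1, m, m + 1)` formed by the first digits of almost every number

For almost every `x > 0` and every integer `b ≥ 2` let `m = ⌊b ^ n * x⌋` (the number formed by the
digits of `x` in base `b` up to the `n`-th digit after the point) and consider the triple
`(1, m, c)`, `c = m + 1`. Then `c ^ 2 < n ^ (1 + ε) R(m c)` for all large `n`, and
`c ^ 2 > n ^ (1 - ε) R(m c)` for infinitely many `n`. As `n` is asymptotic to `log c / log b`, the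
quotient `c ^ 2 / R(m c)` has the exact maximal order `(log c) ^ (1 + o(1))`.
-/

set_option autoImplicit false

namespace Pool.Agent.Results.MP_7aad9f_nt.ExactDefectDigits

open Filter MeasureTheory

/-- the radical: the product of the different primes dividing `m` -/
def R (m : ℕ) : ℕ := ∏ p ∈ m.primeFactors, p

/-- `m = ⌊b ^ n * x⌋` -/
noncomputable def digits (b : ℕ) (x : ℝ) (n : ℕ) : ℕ := ⌊(b : ℝ) ^ n * x⌋₊

/-- For almost every real `x > 0`, every integer `b ≥ 2` and every `ε > 0`, the triples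
`(1, m, m + 1)` with `m = ⌊b ^ n * x⌋` satisfy `(m + 1) ^ 2 < n ^ (1 + ε) R(1 * m * (m + 1))` for
all sufficiently large `n`, and `(m + 1) ^ 2 > n ^ (1 - ε) R(1 * m * (m + 1))` for infinitely
many `n`. -/
theorem result : ∀ᵐ x : ℝ, 0 < x → ∀ b : ℕ, 2 ≤ b → ∀ ε : ℝ, 0 < ε →
    (∀ᶠ n : ℕ in atTop, ((digits b x n + 1 : ℕ) : ℝ) ^ 2 <
      (n : ℝ) ^ (1 + ε) * R (1 * digits b x n * (digits b x n + 1))) ∧
    ∃ᶠ n : ℕ in atTop, (n : ℝ) ^ (1 - ε) * R (1 * digits b x n * (digits b x n + 1)) <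
      ((digits b x n + 1 : ℕ) : ℝ) ^ 2 := by
  filter_upwards [Pool.Agent.Helper932MB.main] with x hx hx0 b hb ε hε
  have hR : ∀ m : ℕ, R (1 * m * (m + 1)) = Pool.Agent.H813R3.Voj.rd (m * (m + 1)) := by
    intro m
    rw [one_mul]
    rfl
  have hb1 : (1 : ℝ) < b := by exact_mod_cast (by omega : 1 < b)
  refine ⟨?_, ?_⟩
  · have h1 := (hx hx0 b hb (ε / 2) (by positivity)).1
    have hpow : Tendsto (fun n : ℕ => (b : ℝ) ^ n * x) atTop atTop :=
      (tendsto_pow_atTop_atTop_of_one_lt hb1).atTop_mul_const hx0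
    have h2 : ∀ᶠ n : ℕ in atTop, (2 : ℝ) ≤ (n : ℝ) ^ (ε / 2) :=
      ((tendsto_rpow_atTop (by positivity : 0 < ε / 2)).comp
        tendsto_natCast_atTop_atTop).eventually_ge_atTop 2
    filter_upwards [h1, h2, hpow.eventually_ge_atTop 1, eventually_ge_atTop 1] with n h3 h4 h5 hn
    have hn0 : (0 : ℝ) < n := by exact_mod_cast hn
    rw [hR]
    unfold digits
    set m : ℕ := ⌊(b : ℝ) ^ n * x⌋₊ with hm
    have hm0 : 1 ≤ m := (Nat.one_le_floor_iff _).mpr h5
    have hm1 : (1 : ℝ) ≤ m := by exact_mod_cast hm0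
    have hrd : (0 : ℝ) < Pool.Agent.H813R3.Voj.rd (m * (m + 1)) := by
      exact_mod_cast Pool.Agent.H813R3.Voj.rd_pos _
    push_cast at h3 ⊢
    have h6 : ((m : ℝ) + 1) ^ 2 ≤ 2 * ((m : ℝ) * (m + 1)) := by nlinarith
    have h7 : (n : ℝ) ^ (1 + ε) = (n : ℝ) ^ (ε / 2) * (n : ℝ) ^ (1 + ε / 2) := by
      rw [← Real.rpow_add hn0]
      congr 1
      ring
    have h8 : (0 : ℝ) < (n : ℝ) ^ (1 + ε / 2) * Pool.Agent.H813R3.Voj.rd (m * (m + 1)) := by
      positivity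
    rw [h7, mul_assoc]
    calc ((m : ℝ) + 1) ^ 2 ≤ 2 * ((m : ℝ) * (m + 1)) := h6
      _ < 2 * ((n : ℝ) ^ (1 + ε / 2) * Pool.Agent.H813R3.Voj.rd (m * (m + 1))) := by linarith
      _ ≤ (n : ℝ) ^ (ε / 2) *
          ((n : ℝ) ^ (1 + ε / 2) * Pool.Agent.H813R3.Voj.rd (m * (m + 1))) :=
        mul_le_mul_of_nonneg_right h4 h8.le
  · have h1 := (hx hx0 b hb ε hε).2
    refine h1.mono fun n h3 => ?_
    rw [hR]
    unfold digits
    refine h3.trans_le ?_
    push_cast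
    have : (0 : ℝ) ≤ (⌊(b : ℝ) ^ n * x⌋₊ : ℝ) := Nat.cast_nonneg _
    nlinarith

end Pool.Agent.Results.MP_7aad9f_nt.ExactDefectDigits
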