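import Pool.Agent.Helper205_Exc.Coeff

/-!
# Triples with two members of the form: fixed coefficient times powers of bounded integers

For all `N`, `κ` and `ε > 0` there are `M`, `η > 0` and `C` such that for all `X ≥ 1` and all
integers `a`, `b` with radicals `≤ X ^ κ` (of any size) there are at most `C X ^ ε` triples of coprime
positive integers `x + y = z` with `X ^ M ≤ z ≤ exp (X ^ η)` whose members are, in some order,
`a u`, `b v`, `w`, where `u` and `v` are products of powers of `N` positive integers `≤ X` and `w` has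
radical `≤ X ^ κ`.

Call a member flexible if it has a divisor `r ^ E ≥ X ^ B` with `r ≤ X ^ ε`. If `w` is flexible, then
`a u` and `b v` are proportional modulo `r ^ E`, hence so are `u` and `v`, and the pairs `(u, v)` are
counted by the determinant method modulo `r ^ E`, uniformly in the factor of proportionality. If `w`
is not flexible, it is itself a product of powers of boundedly many integers `≤ X ^ z`. If now
`b v` is flexible for a much larger `B`, the same argument applies to `w` and `u`, and similarly for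
`a u`. If no member is flexible, then all of them are products of powers of boundedly many integers
`≤ X ^ z'`, and such triples have been counted without conditions on the coefficients.
-/

set_option autoImplicit false

namespace Pool.Agent.Results.MP_7aad9f_nt.FixedCoefficients

/-- the radical of `n` -/
def rad (n : ℕ) : ℕ := ∏ p ∈ n.primeFactors, p

/-- `m` is a product of powers of `N` positive integers `≤ X` -/
def PowerProduct (N X m : ℕ) : Prop :=
  ∃ x e : Fin N → ℕ, (∀ i, 0 < x i ∧ x i ≤ X) ∧ m = ∏ i, x i ^ e i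

/-- the triples `(x, y, z)` of coprime positive integers with `x + y = z` and
`X ^ M ≤ z ≤ exp (X ^ η)` whose members are, in some order, `a u`, `b v` and `w`, where `u` and `v` are
products of powers of `N` integers `≤ X`, and `w` has radical `≤ X ^ κ` -/
def Triples (N κ M : ℕ) (η : ℝ) (X a b : ℕ) : Set (ℕ × ℕ × ℕ) :=
  {t | 0 < t.1 ∧ 0 < t.2.1 ∧ t.1 + t.2.1 = t.2.2 ∧ Nat.Coprime t.1 t.2.1 ∧
    X ^ M ≤ t.2.2 ∧ (t.2.2 : ℝ) ≤ Real.exp ((X : ℝ) ^ η) ∧
    ∃ u v w : ℕ, PowerProduct N X u ∧ PowerProduct N X v ∧ rad w ≤ X ^ κ ∧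
      ({t.1, t.2.1, t.2.2} : Multiset ℕ) = {a * u, b * v, w}}

open Finset Pool.Agent.Helper205_Exc Pool.Agent.Y913.Nb

lemma rad_eq (n : ℕ) : rad n = Pool.Agent.H785R2.ABC.rad n := rfl

lemma pp_nb {N X m : ℕ} {Y : ℝ} (hXY : (X : ℝ) ≤ Y) (h : PowerProduct N X m) : NB N Y m := by
  obtain ⟨x, e, h1, h2⟩ := h
  exact ⟨x, e, fun i => ⟨(h1 i).1, le_trans (by exact_mod_cast (h1 i).2) hXY⟩, h2⟩

/-- the radical of `a u` -/
lemma rad_coeff {N X κ a u : ℕ} (ha : rad a ≤ X ^ κ) (hu : PowerProduct N X u) :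
    rad (a * u) ≤ X ^ (κ + N) := by
  classical
  obtain ⟨x, e, h1, h2⟩ := hu
  have h3 : rad (a * u) ∣ rad a * ∏ i, x i := by
    unfold rad
    apply Finset.prod_primes_dvd
    · intro p hp
      exact (Nat.prime_of_mem_primeFactors hp).prime
    · intro p hp
      have hpp := Nat.prime_of_mem_primeFactors hp
      have hd := Nat.dvd_of_mem_primeFactors hp
      have hne : a * u ≠ 0 := (Nat.mem_primeFactors.mp hp).2.2
      rcases hpp.dvd_mul.mp hd with h | h
      · apply Dvd.dvd.mul_right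
        apply Finset.dvd_prod_of_mem (fun q : ℕ => q)
        rw [Nat.mem_primeFactors]
        exact ⟨hpp, h, fun h0 => hne (by rw [h0, zero_mul])⟩
      · apply Dvd.dvd.mul_left
        rw [h2] at h
        obtain ⟨i, -, hi⟩ := (hpp.prime.dvd_finsetProd_iff _).mp h
        exact (hpp.dvd_of_dvd_pow hi).trans (Finset.dvd_prod_of_mem x (mem_univ i))
  have hpos : 0 < rad a * ∏ i, x i := by
    apply Nat.mul_pos
    · exact Finset.prod_pos fun p hp => (Nat.prime_of_mem_primeFactors hp).pos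
    · exact Finset.prod_pos fun i _ => (h1 i).1
  calc rad (a * u) ≤ rad a * ∏ i, x i := Nat.le_of_dvd hpos h3
    _ ≤ X ^ κ * ∏ _i : Fin N, X :=
        Nat.mul_le_mul ha (Finset.prod_le_prod' fun i _ => (h1 i).2)
    _ = X ^ (κ + N) := by rw [prod_const, card_univ, Fintype.card_fin, pow_add]

lemma perm3 {x y z p q w : ℕ} (h : ({x, y, z} : Multiset ℕ) = {p, q, w}) :
    (x = p ∧ y = q ∧ z = w) ∨ (x = p ∧ y = w ∧ z = q) ∨ (x = q ∧ y = p ∧ z = w) ∨
    (x = q ∧ y = w ∧ z = p) ∨ (x = w ∧ y = p ∧ z = q) ∨ (x = w ∧ y = q ∧ z = p) := by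
  have two : ∀ {a b c d : ℕ}, ({a, b} : Multiset ℕ) = {c, d} → (a = c ∧ b = d) ∨ (a = d ∧ b = c) := by
    intro a b c d h
    have ha : a ∈ ({c, d} : Multiset ℕ) := by rw [← h]; simp
    simp only [Multiset.insert_eq_cons, Multiset.mem_cons, Multiset.mem_singleton] at ha
    rcases ha with rfl | rfl
    · left
      refine ⟨rfl, ?_⟩
      simpa using h
    · right
      refine ⟨rfl, ?_⟩
      have h' : ({a, b} : Multiset ℕ) = {a, c} := by rw [h, Multiset.pair_comm]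
      simpa using h'
  have hx : x ∈ ({p, q, w} : Multiset ℕ) := by rw [← h]; simp
  simp only [Multiset.insert_eq_cons, Multiset.mem_cons, Multiset.mem_singleton] at hx
  rcases hx with rfl | rfl | rfl
  · have h' : ({y, z} : Multiset ℕ) = {q, w} := by simpa using h
    rcases two h' with ⟨h1, h2⟩ | ⟨h1, h2⟩
    · exact Or.inl ⟨rfl, h1, h2⟩
    · exact Or.inr (Or.inl ⟨rfl, h1, h2⟩)
  · have h0 : ({x, y, z} : Multiset ℕ) = {x, p, w} := by
      rw [h]
      exact Multiset.cons_swap _ _ _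
    have h' : ({y, z} : Multiset ℕ) = {p, w} := by simpa using h0
    rcases two h' with ⟨h1, h2⟩ | ⟨h1, h2⟩
    · exact Or.inr (Or.inr (Or.inl ⟨rfl, h1, h2⟩))
    · exact Or.inr (Or.inr (Or.inr (Or.inl ⟨rfl, h1, h2⟩)))
  · have h0 : ({x, y, z} : Multiset ℕ) = {x, p, q} := by
      rw [h]
      show p ::ₘ q ::ₘ x ::ₘ 0 = x ::ₘ p ::ₘ q ::ₘ 0
      rw [Multiset.cons_swap q x, Multiset.cons_swap p x]
    have h' : ({y, z} : Multiset ℕ) = {p, q} := by simpa using h0
    rcases two h' with ⟨h1, h2⟩ | ⟨h1, h2⟩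
    · exact Or.inr (Or.inr (Or.inr (Or.inr (Or.inl ⟨rfl, h1, h2⟩))))
    · exact Or.inr (Or.inr (Or.inr (Or.inr (Or.inr ⟨rfl, h1, h2⟩))))

/-- the order of the members, as a permutation -/
lemma order {x y p q w : ℕ} (h : ({x, y, x + y} : Multiset ℕ) = {p, q, w}) :
    ∃ s : Equiv.Perm (Fin 3), mem (x, y) (s 0) = w ∧ mem (x, y) (s 1) = q ∧ mem (x, y) (s 2) = p := by
  rcases perm3 h with ⟨h1, h2, h3⟩ | ⟨h1, h2, h3⟩ | ⟨h1, h2, h3⟩ | ⟨h1, h2, h3⟩ | ⟨h1, h2, h3⟩ |
    ⟨h1, h2, h3⟩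
  · exact ⟨Equiv.swap 0 2, h3, h2, h1⟩
  · exact ⟨finRotate 3, h2, h3, h1⟩
  · exact ⟨(finRotate 3)⁻¹, h3, h1, h2⟩
  · exact ⟨Equiv.swap 0 1, h2, h1, h3⟩
  · exact ⟨Equiv.swap 1 2, h1, h3, h2⟩
  · exact ⟨1, h1, h2, h3⟩

/-- all triples with small members -/
lemma small_card {S : Set (ℕ × ℕ × ℕ)} (h : ∀ v ∈ S, v.1 + v.2.1 = v.2.2 ∧ (v.2.2 : ℝ) ≤ Real.exp 1) :
    S.Finite ∧ (S.ncard : ℝ) ≤ 27 := by
  have hsub : S ⊆ ↑((range 3) ×ˢ ((range 3) ×ˢ (range 3))) := by
    intro v hv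
    obtain ⟨h1, h2⟩ := h v hv
    have h3 : (v.2.2 : ℝ) < 3 := lt_of_le_of_lt h2 (by
      have := Real.exp_one_lt_d9
      linarith)
    have h4 : v.2.2 < 3 := by exact_mod_cast h3
    rw [mem_coe, mem_product, mem_product, mem_range, mem_range, mem_range]
    omega
  refine ⟨(Finset.finite_toSet _).subset hsub, ?_⟩
  have h1 := Set.ncard_le_ncard hsub (Finset.finite_toSet _)
  rw [Set.ncard_coe_finset, card_product, card_product, card_range] at h1
  exact_mod_cast h1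

/-- **Main theorem.** For all `N`, `κ` and `ε > 0` there are `M`, `η > 0` and `C` such that
`Triples N κ M η X a b` has at most `C X ^ ε` elements for all `X ≥ 1` and all `a`, `b` with
radicals `≤ X ^ κ`. -/
theorem result (N κ : ℕ) (ε : ℝ) (hε : 0 < ε) : ∃ (M : ℕ) (η C : ℝ), 0 < η ∧ 0 < C ∧
    ∀ X a b : ℕ, 1 ≤ X → rad a ≤ X ^ κ → rad b ≤ X ^ κ →
      (Triples N κ M η X a b).Finite ∧ ((Triples N κ M η X a b).ncard : ℝ) ≤ C * (X : ℝ) ^ ε := by
  classical
  obtain ⟨k1, hk1⟩ : ∃ k1 : ℕ, k1 = κ + N + 1 := ⟨_, rfl⟩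
  have hk0 : 1 ≤ k1 := by omega
  have hk0r : (0 : ℝ) < k1 := by exact_mod_cast hk0
  obtain ⟨M, η, C, hη, hC, hmain⟩ := coeff_main N (ε / k1) (by positivity)
  refine ⟨k1 * M, η, 6 * C + 27, hη, by positivity, ?_⟩
  intro X a b hX ha hb
  have hXr : (1 : ℝ) ≤ X := by exact_mod_cast hX
  have hXε : (1 : ℝ) ≤ (X : ℝ) ^ ε := Real.one_le_rpow hXr hε.le
  rcases Nat.lt_or_ge X 2 with hX2 | hX2
  · have hX1 : X = 1 := by omega
    subst hX1
    have h1 := small_card (S := Triples N κ (k1 * M) η 1 a b) (by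
      rintro v ⟨-, -, h3, -, -, h6, -⟩
      refine ⟨h3, ?_⟩
      simpa using h6)
    refine ⟨h1.1, h1.2.trans ?_⟩
    calc (27 : ℝ) ≤ 6 * C + 27 := by linarith
      _ ≤ _ := le_mul_of_one_le_right (by positivity) hXε
  -- the new variable
  obtain ⟨Z, hZ⟩ : ∃ Z : ℕ, Z = X ^ k1 := ⟨_, rfl⟩
  have hXZ : X ≤ Z := by rw [hZ]; exact Nat.le_self_pow (by omega) X
  have hZ2 : 2 ≤ Z := hX2.trans hXZ
  have hZr : (Z : ℝ) ^ (ε / k1) = (X : ℝ) ^ ε := by
    rw [hZ]
    push_cast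
    rw [← Real.rpow_natCast, ← Real.rpow_mul (by linarith)]
    congr 1
    field_simp
  have hXZr : (X : ℝ) ≤ Z := by exact_mod_cast hXZ
  obtain ⟨B, hB⟩ : ∃ B : ℕ, B = ⌊Real.exp ((X : ℝ) ^ η)⌋₊ := ⟨_, rfl⟩
  obtain ⟨T, hT⟩ : ∃ T : Equiv.Perm (Fin 3) → Finset (ℕ × ℕ), T = fun s =>
    ((range (B + 1)) ×ˢ (range (B + 1))).filter fun t => (0 < t.1 ∧ 0 < t.2 ∧ Nat.Coprime t.1 t.2) ∧
      X ^ (k1 * M) ≤ t.1 + t.2 ∧ ((t.1 + t.2 : ℕ) : ℝ) ≤ Real.exp ((X : ℝ) ^ η) ∧
      rad (mem t (s 0)) ≤ X ^ κ ∧ (∃ u, PowerProduct N X u ∧ mem t (s 2) = a * u) ∧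
      (∃ v, PowerProduct N X v ∧ mem t (s 1) = b * v) := ⟨_, rfl⟩
  have hTc : ∀ s : Equiv.Perm (Fin 3), ((T s).card : ℝ) ≤ C * (X : ℝ) ^ ε := by
    intro s
    rw [← hZr]
    have hne : ∀ i j : Fin 3, i ≠ j → s i ≠ s j := fun i j h => s.injective.ne h
    apply hmain Z hZ2 (T s) (s 0) (s 1) (s 2) a b (hne _ _ (by decide)) (hne _ _ (by decide))
      (hne _ _ (by decide))
    intro t ht
    rw [hT] at ht
    simp only [mem_filter] at ht
    obtain ⟨-, h1, h2, h3, h4, ⟨u, hu, hu2⟩, ⟨v, hv, hv2⟩⟩ := ht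
    refine ⟨h1, ?_, ⟨u, hu2, pp_nb hXZr hu⟩, ⟨v, hv2, pp_nb hXZr hv⟩, ?_, ?_⟩
    · intro m
      rw [← rad_eq]
      have hm : m = s 0 ∨ m = s 1 ∨ m = s 2 := by
        obtain ⟨m', rfl⟩ := s.surjective m
        fin_cases m'
        · exact Or.inl rfl
        · exact Or.inr (Or.inl rfl)
        · exact Or.inr (Or.inr rfl)
      have hpow : ∀ c : ℕ, c ≤ κ + N → X ^ c ≤ Z := fun c hc => by
        rw [hZ]
        exact Nat.pow_le_pow_right (by omega) (by omega)
      rcases hm with rfl | rfl | rfl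
      · exact h4.trans (hpow _ (by omega))
      · rw [hv2]
        exact (rad_coeff hb hv).trans (hpow _ le_rfl)
      · rw [hu2]
        exact (rad_coeff ha hu).trans (hpow _ le_rfl)
    · exact h3.trans (Real.exp_le_exp.mpr (Real.rpow_le_rpow (by linarith) hXZr hη.le))
    · rw [hZ, ← pow_mul]
      exact h2
  have hsub : Triples N κ (k1 * M) η X a b ⊆
      ↑((univ : Finset (Equiv.Perm (Fin 3))).biUnion fun s =>
        (T s).image fun t : ℕ × ℕ => (t.1, t.2, t.1 + t.2)) := by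
    rintro ⟨x, y, z⟩ ⟨h1, h2, h3, h4, h5, h6, u, v, w, hu, hv, hw, hmul⟩
    simp only at h1 h2 h3 h4 h5 h6 hmul
    subst h3
    have hBle : x + y ≤ B := by rw [hB]; exact Nat.le_floor h6
    obtain ⟨s, hs0, hs1, hs2⟩ := order hmul
    rw [mem_coe, mem_biUnion]
    refine ⟨s, mem_univ _, ?_⟩
    rw [mem_image]
    refine ⟨(x, y), ?_, rfl⟩
    rw [hT]
    simp only [mem_filter, mem_product, mem_range]
    exact ⟨⟨by omega, by omega⟩, ⟨h1, h2, h4⟩, h5, h6, by rw [hs0]; exact hw, ⟨u, hu, hs2⟩,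
      ⟨v, hv, hs1⟩⟩
  refine ⟨(Finset.finite_toSet _).subset hsub, ?_⟩
  have h1 := Set.ncard_le_ncard hsub (Finset.finite_toSet _)
  rw [Set.ncard_coe_finset] at h1
  have h2 : (((Triples N κ (k1 * M) η X a b).ncard : ℕ) : ℝ) ≤
      ∑ s : Equiv.Perm (Fin 3), ((T s).card : ℝ) := by
    have h3 := h1.trans (card_biUnion_le.trans (sum_le_sum fun s _ => card_image_le))
    exact_mod_cast h3
  have h3 : ∑ s : Equiv.Perm (Fin 3), ((T s).card : ℝ) ≤ 6 * (C * (X : ℝ) ^ ε) := by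
    calc ∑ s : Equiv.Perm (Fin 3), ((T s).card : ℝ)
        ≤ ∑ _s : Equiv.Perm (Fin 3), C * (X : ℝ) ^ ε := sum_le_sum fun s _ => hTc s
      _ = 6 * (C * (X : ℝ) ^ ε) := by
          rw [sum_const, card_univ, Fintype.card_perm, Fintype.card_fin, nsmul_eq_mul]
          norm_num [Nat.factorial]
  have : 0 ≤ (X : ℝ) ^ ε := by positivity
  nlinarith

end Pool.Agent.Results.MP_7aad9f_nt.FixedCoefficients
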