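import Pool.Agent.H902B.Core

set_option autoImplicit false

/-!
# Many large abc quotients with one given term

For a fixed first term `a`, for instance `a = 1` (consecutive integers), there are triples
`a + b = c` with `c > R (a b c) exp ((log log c) ^ 2 / 50)`. They occur at every height, at least
`L ^ (1 / 20)` of them have `L ≤ log c ≤ L (log L) ^ 2`, and `a` may vary in a wide range.

The numbers `c` are products of `a + P` and of powers of `1 + R(a) i P`, `i = 1, …, T`, where `P` is
a prime of size `8 ^ T`, for which `c ≡ a (mod P ^ (2 T + 1))`. They are found with integral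
functionals `∑ A i f(i) + B i f'(i)` of height `exp (O (T))` which vanish on the polynomials of
degree smaller than `N` (Padé approximants of the logarithm): applied to the function
`(1 + t y) log (1 + t y)` they give products of powers of the numbers `1 + i y` which are
`1 + s P ^ N` with `s` prime to `P`, for every `N ≤ 2 T`, so that every residue `≡ 1 (mod P)` modulo
`P ^ (2 T + 1)` is such a product with exponents of absolute value at most `exp (O (T))`.
-/

namespace Pool.Agent.Results.MP_7aad9f_nt.FixedTermDoubleLog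

/-- the radical `R(m)`: the product of the distinct primes dividing `m` -/
def R (m : ℕ) : ℕ := ∏ p ∈ m.primeFactors, p

/-- For all `L ≥ L₀` and all positive integers `a` with `R a ≤ L ^ (1 / 200)` and
`log a ≤ (log L) ^ 2 / 10000` there are at least `L ^ (1 / 20)` numbers `c` with
`L ≤ log c ≤ L (log L) ^ 2` such that `c = a + b` with a positive integer `b` prime to `a` and
`c > R (a b c) exp ((log log c) ^ 2 / 50)`. -/
theorem result : ∃ L₀ : ℝ, ∀ L : ℝ, L₀ ≤ L → ∀ a : ℕ, 1 ≤ a →
    (R a : ℝ) ≤ L ^ (1 / 200 : ℝ) → Real.log a ≤ Real.log L ^ 2 / 10000 →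
    ∃ S : Finset ℕ, L ^ (1 / 20 : ℝ) ≤ S.card ∧ ∀ c ∈ S,
      L ≤ Real.log c ∧ Real.log c ≤ L * Real.log L ^ 2 ∧
      ∃ b : ℕ, 0 < b ∧ Nat.Coprime a b ∧ a + b = c ∧
        (R (a * b * c) : ℝ) * Real.exp (Real.log (Real.log c) ^ 2 / 50) < c := by
  obtain ⟨L₀, h⟩ := Pool.Agent.H902B.core2
  refine ⟨L₀, fun L hL a ha h1 h2 => ?_⟩
  obtain ⟨S, hS, hc⟩ := h L hL a ha h1 h2
  refine ⟨S, hS, fun c hcS => ?_⟩
  obtain ⟨h3, h4, h5, h6, h7⟩ := hc c hcS
  refine ⟨h5, h6, c - a, by omega, ?_, by omega, h7⟩
  have h8 : a + (c - a) = c := by omega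
  rw [← h8] at h4
  exact (Nat.coprime_self_add_right).1 h4

end Pool.Agent.Results.MP_7aad9f_nt.FixedTermDoubleLog
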